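import Mathlib

/-!
# A counting form of the Chernoff bound and random zero-one matrices
-/

namespace Pool.Agent.Lib.MP_fe4852_pr

open Finset Real

lemma exp_neg_le_quad {x : ℝ} (hx : 0 ≤ x) : exp (-x) ≤ 1 - x + x ^ 2 / 2 := by
  have h1 : 1 + x + x ^ 2 / 2 ≤ exp x := Real.quadratic_le_exp_of_nonneg hx
  have h2 : 0 < 1 + x + x ^ 2 / 2 := by positivity
  have h3 : exp (-x) ≤ 1 / (1 + x + x ^ 2 / 2) := by
    rw [Real.exp_neg, ← one_div]
    exact one_div_le_one_div_of_le h2 h1
  refine h3.trans ?_
  rw [div_le_iff₀ h2]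
  nlinarith [sq_nonneg (x ^ 2)]

/-- Counting Chernoff bound: few functions `g : ι → κ` hit `B` much less often than expected. -/
lemma chernoff_count {ι κ : Type*} [Fintype ι] [Fintype κ] [DecidableEq ι] [DecidableEq κ]
    (B : Finset κ) (q ε : ℝ) (hq : (B.card : ℝ) = q * Fintype.card κ) (hκ : 0 < Fintype.card κ)
    (hε : 0 ≤ ε) :
    ((univ.filter fun g : ι → κ =>
      ((univ.filter fun i => g i ∈ B).card : ℝ) ≤ (q - ε) * Fintype.card ι).card : ℝ) ≤
      exp (-(ε ^ 2 / 2) * Fintype.card ι) * (Fintype.card κ : ℝ) ^ Fintype.card ι := by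
  set N : ℝ := (Fintype.card ι : ℝ) with hN
  set K : ℝ := (Fintype.card κ : ℝ) with hK
  have hKpos : 0 < K := by rw [hK]; exact_mod_cast hκ
  have hq0 : 0 ≤ q := by
    have h : 0 ≤ q * K := by rw [← hq]; positivity
    exact nonneg_of_mul_nonneg_left h hKpos
  have hq1 : q ≤ 1 := by
    have h : q * K ≤ 1 * K := by
      rw [← hq, one_mul, hK]
      exact_mod_cast card_le_univ B
    exact le_of_mul_le_mul_right h hKpos
  set θ : κ → ℝ := fun k => if k ∈ B then exp (-ε) else 1 with hθ
  have hθpos : ∀ k, 0 < θ k := by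
    intro k
    simp only [hθ]
    split_ifs
    · exact exp_pos _
    · exact one_pos
  have hprod : ∀ g : ι → κ, ∏ i, θ (g i) =
      exp (-ε * ((univ.filter fun i => g i ∈ B).card : ℝ)) := by
    intro g
    simp only [hθ]
    rw [prod_ite, prod_const, prod_const_one, mul_one, ← Real.exp_nat_mul]
    congr 1
    ring
  have hsum : ∑ k, θ k ≤ K * exp (-q * (ε - ε ^ 2 / 2)) := by
    have e1 : ∑ k, θ k = K * (1 - q + q * exp (-ε)) := by
      simp only [hθ]
      rw [sum_ite, sum_const, sum_const, nsmul_eq_mul, nsmul_eq_mul, mul_one]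
      have e2 : (univ.filter fun k => k ∈ B) = B := by ext; simp
      have e3 : ((univ.filter fun k => k ∉ B).card : ℝ) = K - B.card := by
        have h := card_filter_add_card_filter_not (s := (univ : Finset κ)) (p := fun k => k ∈ B)
        rw [e2, card_univ] at h
        rw [hK, ← h]
        push_cast
        ring
      rw [e2, e3, hq]
      ring
    rw [e1]
    refine mul_le_mul_of_nonneg_left ?_ hKpos.le
    have h1 : 1 - q + q * exp (-ε) ≤ 1 + (-q * (ε - ε ^ 2 / 2)) := by
      have := mul_le_mul_of_nonneg_left (exp_neg_le_quad hε) hq0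
      linarith
    refine h1.trans ?_
    have := Real.add_one_le_exp (-q * (ε - ε ^ 2 / 2))
    linarith
  have hmain : ((univ.filter fun g : ι → κ =>
      ((univ.filter fun i => g i ∈ B).card : ℝ) ≤ (q - ε) * N).card : ℝ) ≤
      ∑ g : ι → κ, exp (ε * (q - ε) * N) * ∏ i, θ (g i) := by
    rw [card_eq_sum_ones, Nat.cast_sum, sum_filter]
    refine sum_le_sum fun g _ => ?_
    split_ifs with h
    · rw [hprod, ← Real.exp_add, Nat.cast_one]
      apply Real.one_le_exp
      have := mul_le_mul_of_nonneg_left h hε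
      linarith
    · exact mul_nonneg (exp_pos _).le (prod_nonneg fun i _ => (hθpos _).le)
  refine hmain.trans ?_
  rw [← mul_sum]
  have hfac : ∑ g : ι → κ, ∏ i, θ (g i) = (∑ k, θ k) ^ Fintype.card ι := by
    rw [← Finset.card_univ (α := ι), ← prod_const, prod_univ_sum, Fintype.piFinset_univ]
  rw [hfac]
  have hpow : (∑ k, θ k) ^ Fintype.card ι ≤
      (K * exp (-q * (ε - ε ^ 2 / 2))) ^ Fintype.card ι :=
    pow_le_pow_left₀ (sum_nonneg fun k _ => (hθpos k).le) hsum _
  refine (mul_le_mul_of_nonneg_left hpow (exp_pos _).le).trans ?_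
  rw [mul_pow, ← Real.exp_nat_mul, ← hN]
  rw [show exp (ε * (q - ε) * N) * (K ^ Fintype.card ι * exp (N * (-q * (ε - ε ^ 2 / 2)))) =
    exp (ε * (q - ε) * N + N * (-q * (ε - ε ^ 2 / 2))) * K ^ Fintype.card ι by
      rw [Real.exp_add]; ring]
  refine mul_le_mul_of_nonneg_right ?_ (by positivity)
  apply Real.exp_le_exp.2
  have hN0 : 0 ≤ N := by rw [hN]; positivity
  nlinarith [mul_nonneg hN0 (sq_nonneg ε), mul_nonneg (mul_nonneg hN0 (sq_nonneg ε))
    (sub_nonneg.2 hq1)]

/-- Number of functions constrained to take values in `C` on `T`. -/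
lemma card_cyl {ι : Type*} [Fintype ι] [DecidableEq ι] {b : ℕ} (hb : 0 < b) (T : Finset ι)
    (C : Finset (Fin b)) :
    ((univ.filter fun r : ι → Fin b => ∀ i ∈ T, r i ∈ C).card : ℝ) =
      ((C.card : ℝ) / b) ^ T.card * Fintype.card (ι → Fin b) := by
  have e : (univ.filter fun r : ι → Fin b => ∀ i ∈ T, r i ∈ C) =
      Fintype.piFinset fun i => if i ∈ T then C else univ := by
    ext r
    simp only [mem_filter, mem_univ, true_and, Fintype.mem_piFinset]
    refine forall_congr' fun i => ?_
    split_ifs with h <;> simp [h]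
  rw [e, Fintype.card_piFinset]
  have e2 : ∀ i, (if i ∈ T then C else univ).card = if i ∈ T then C.card else b := by
    intro i
    split_ifs <;> simp
  have hb' : (b : ℝ) ≠ 0 := by positivity
  simp only [e2]
  rw [prod_ite, prod_const, prod_const]
  have e3 : (univ.filter fun i => i ∈ T) = T := by ext; simp
  have e4 : (univ.filter fun i => i ∉ T).card = Fintype.card ι - T.card := by
    have h := card_filter_add_card_filter_not (s := (univ : Finset ι)) (p := fun i => i ∈ T)
    rw [e3, card_univ] at h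
    omega
  have hle : T.card ≤ Fintype.card ι := card_le_univ T
  rw [e3, e4, Fintype.card_fun, Fintype.card_fin, div_pow]
  push_cast
  rw [div_mul_eq_mul_div, eq_div_iff (by positivity), mul_assoc, ← pow_add,
    Nat.sub_add_cancel hle]

end Pool.Agent.Lib.MP_fe4852_pr
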