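import Mathlib

/-!
# Disagreement bounds
-/

open MeasureTheory

namespace Pool.Agent.Lib.MP_fe4852_pr

/-- Total variation distance of two laws on `ℝ`: the supremum over all measurable sets `A` of
`|μ(A) - ν(A)|`. -/
noncomputable def tv (μ ν : ProbabilityMeasure ℝ) : ℝ :=
  ⨆ A : {A : Set ℝ // MeasurableSet A}, |(μ : Measure ℝ).real A.1 - (ν : Measure ℝ).real A.1|

/-- `f` is a disagreement bound: it maps `[0,1]` to `[0,1]`, and every finite collection of real
random variables (given by their laws `μ i`) has a coupling `X` on some probability space in which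
every two members satisfy `P(X i ≠ X j) ≤ f (tv (μ i) (μ j))`. -/
def IsDisagreementBound (f : ℝ → ℝ) : Prop :=
  (∀ x ∈ Set.Icc (0 : ℝ) 1, f x ∈ Set.Icc (0 : ℝ) 1) ∧
    ∀ (n : ℕ) (μ : Fin n → ProbabilityMeasure ℝ),
      ∃ (Ω : Type) (_ : MeasurableSpace Ω) (P : Measure Ω) (_ : IsProbabilityMeasure P)
        (X : Fin n → Ω → ℝ),
        (∀ i, Measurable (X i)) ∧ (∀ i, P.map (X i) = (μ i : Measure ℝ)) ∧
          ∀ i j, i ≠ j → P.real {ω | X i ω ≠ X j ω} ≤ f (tv (μ i) (μ j))

end Pool.Agent.Lib.MP_fe4852_pr
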