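import Pool.Agent.Lib.MP_fe4852_pr.Defs

/-!
# Finitely supported laws on the real line: total variation and couplings
-/

open MeasureTheory

namespace Pool.Agent.Lib.MP_fe4852_pr

open Finset

variable {Ω₀ : Type} [Fintype Ω₀]

/-- The law putting mass `m a` at the point `e a`. -/
noncomputable def dlaw (e : Ω₀ → ℝ) (m : Ω₀ → ℝ) : Measure ℝ :=
  ∑ a, ENNReal.ofReal (m a) • Measure.dirac (e a)

lemma dlaw_apply (e : Ω₀ → ℝ) (m : Ω₀ → ℝ) {A : Set ℝ} (hA : MeasurableSet A) :
    dlaw e m A = ∑ a, ENNReal.ofReal (m a) * A.indicator 1 (e a) := by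
  unfold dlaw
  rw [Measure.finsetSum_apply]
  refine sum_congr rfl fun a _ => ?_
  rw [Measure.smul_apply, Measure.dirac_apply' _ hA, smul_eq_mul]

lemma dlaw_real (e : Ω₀ → ℝ) {m : Ω₀ → ℝ} (hm : ∀ a, 0 ≤ m a) {A : Set ℝ} (hA : MeasurableSet A) :
    (dlaw e m).real A = ∑ a, m a * A.indicator 1 (e a) := by
  rw [measureReal_def, dlaw_apply e m hA, ENNReal.toReal_sum]
  · refine sum_congr rfl fun a _ => ?_
    rw [ENNReal.toReal_mul, ENNReal.toReal_ofReal (hm a)]
    congr 1
    by_cases h : e a ∈ A <;> simp [h]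
  · intro a _
    refine ENNReal.mul_ne_top ENNReal.ofReal_ne_top ?_
    by_cases h : e a ∈ A <;> simp [h]

lemma dlaw_prob (e : Ω₀ → ℝ) {m : Ω₀ → ℝ} (hm : ∀ a, 0 ≤ m a) (h1 : ∑ a, m a = 1) :
    IsProbabilityMeasure (dlaw e m) := by
  constructor
  rw [dlaw_apply e m MeasurableSet.univ]
  simp only [Set.indicator_univ, Pi.one_apply, mul_one]
  rw [← ENNReal.ofReal_sum_of_nonneg (fun a _ => hm a), h1, ENNReal.ofReal_one]

/-- Total variation of two finitely supported laws with common atoms. -/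
lemma tv_dlaw {e : Ω₀ → ℝ} (he : Function.Injective e) {m m' : Ω₀ → ℝ} (hm : ∀ a, 0 ≤ m a)
    (hm' : ∀ a, 0 ≤ m' a) (h1 : ∑ a, m a = 1) (h1' : ∑ a, m' a = 1)
    (μ ν : ProbabilityMeasure ℝ) (hμ : (μ : Measure ℝ) = dlaw e m)
    (hν : (ν : Measure ℝ) = dlaw e m') :
    tv μ ν = 1 - ∑ a, min (m a) (m' a) := by
  classical
  have hup : ∀ (k k' : Ω₀ → ℝ), (∑ a, k a = 1) → ∀ A : Set ℝ,
      ∑ a, k a * A.indicator 1 (e a) - ∑ a, k' a * A.indicator 1 (e a) ≤
        1 - ∑ a, min (k a) (k' a) := by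
    intro k k' hk A
    rw [← hk, ← sum_sub_distrib, ← sum_sub_distrib]
    refine sum_le_sum fun a _ => ?_
    by_cases h : e a ∈ A
    · simp only [h, Set.indicator_of_mem, Pi.one_apply, mul_one]
      have := min_le_right (k a) (k' a)
      linarith
    · simp only [h, not_false_eq_true, Set.indicator_of_notMem, mul_zero, sub_zero]
      have := min_le_left (k a) (k' a)
      linarith
  have hbound : ∀ A : {A : Set ℝ // MeasurableSet A},
      |(μ : Measure ℝ).real A.1 - (ν : Measure ℝ).real A.1| ≤ 1 - ∑ a, min (m a) (m' a) := by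
    intro A
    rw [hμ, hν, dlaw_real e hm A.2, dlaw_real e hm' A.2, abs_le]
    constructor
    · have := hup m' m h1' A.1
      have e2 : ∑ a, min (m' a) (m a) = ∑ a, min (m a) (m' a) :=
        sum_congr rfl fun a _ => min_comm _ _
      rw [e2] at this
      linarith
    · exact hup m m' h1 A.1
  unfold tv
  haveI : Nonempty {A : Set ℝ // MeasurableSet A} := ⟨⟨∅, MeasurableSet.empty⟩⟩
  refine le_antisymm (ciSup_le hbound) ?_
  have hfin : (e '' {a | m' a < m a}).Finite := Set.toFinite _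
  refine le_ciSup_of_le ⟨_, Set.forall_mem_range.2 hbound⟩
    ⟨e '' {a | m' a < m a}, hfin.measurableSet⟩ ?_
  rw [hμ, hν, dlaw_real e hm hfin.measurableSet, dlaw_real e hm' hfin.measurableSet]
  refine le_trans (le_of_eq ?_) (le_abs_self _)
  rw [← h1, ← sum_sub_distrib, ← sum_sub_distrib]
  refine sum_congr rfl fun a _ => ?_
  by_cases h : m' a < m a
  · have hmem : e a ∈ e '' {a | m' a < m a} := ⟨a, h, rfl⟩
    simp only [hmem, Set.indicator_of_mem, Pi.one_apply, mul_one]
    rw [min_eq_right h.le]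
  · have hmem : e a ∉ e '' {a | m' a < m a} := by
      rintro ⟨b, hb, hba⟩
      rw [he hba] at hb
      exact h hb
    simp only [hmem, not_false_eq_true, Set.indicator_of_notMem, mul_zero, sub_zero]
    rw [min_eq_left (not_lt.1 h)]
    ring

/-- A random variable with a finitely supported law takes values in the atoms, almost surely. -/
lemma ae_mem_atoms {Ω : Type} [MeasurableSpace Ω] {P : Measure Ω} {X : Ω → ℝ} (hX : Measurable X)
    {e : Ω₀ → ℝ} {m : Ω₀ → ℝ} (h : P.map X = dlaw e m) :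
    ∀ᵐ ω ∂P, ∃ a, 0 < m a ∧ X ω = e a := by
  classical
  have hfin : (e '' {a | 0 < m a}).Finite := Set.toFinite _
  have hzero : P.map X (e '' {a | 0 < m a})ᶜ = 0 := by
    rw [h, dlaw_apply e m hfin.measurableSet.compl]
    refine sum_eq_zero fun a _ => ?_
    by_cases ha : 0 < m a
    · have : e a ∉ (e '' {a | 0 < m a})ᶜ := fun hn => hn ⟨a, ha, rfl⟩
      simp [this]
    · rw [ENNReal.ofReal_of_nonpos (not_lt.1 ha), zero_mul]
  rw [Measure.map_apply hX hfin.measurableSet.compl] at hzero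
  have : ∀ᵐ ω ∂P, ω ∉ X ⁻¹' (e '' {a | 0 < m a})ᶜ := measure_eq_zero_iff_ae_notMem.1 hzero
  filter_upwards [this] with ω hω
  rw [Set.mem_preimage, Set.mem_compl_iff, not_not] at hω
  obtain ⟨a, ha, hae⟩ := hω
  exact ⟨a, ha, hae.symm⟩

/-- Counting bound transferred to a coupling. -/
lemma sum_agree_le {M : ℕ} {Ω : Type} [MeasurableSpace Ω] {P : Measure Ω} [IsProbabilityMeasure P]
    {X : Fin M → Ω → ℝ} (hX : ∀ v, Measurable (X v)) {e : Ω₀ → ℝ} (he : Function.Injective e)
    {m : Fin M → Ω₀ → ℝ} (h : ∀ v, P.map (X v) = dlaw e (m v)) {Bd : ℝ}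
    (hB : ∀ F : Fin M → Ω₀, (∀ v, 0 < m v (F v)) →
      ((Nat.card {x : Fin M × Fin M // F x.1 = F x.2} : ℕ) : ℝ) ≤ Bd) :
    ∑ x : Fin M × Fin M, P.real {ω | X x.1 ω = X x.2 ω} ≤ Bd := by
  classical
  have hmeas : ∀ x : Fin M × Fin M, MeasurableSet {ω | X x.1 ω = X x.2 ω} := fun x =>
    measurableSet_eq_fun (hX x.1) (hX x.2)
  have e1 : ∑ x : Fin M × Fin M, P.real {ω | X x.1 ω = X x.2 ω} =
      ∫ ω, ∑ x : Fin M × Fin M, {ω | X x.1 ω = X x.2 ω}.indicator (fun _ => (1 : ℝ)) ω ∂P := by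
    rw [integral_finsetSum]
    · refine sum_congr rfl fun x _ => ?_
      rw [integral_indicator_const _ (hmeas x)]
      simp
    · intro x _
      exact (integrable_const 1).indicator (hmeas x)
  rw [e1]
  have hae : ∀ᵐ ω ∂P, ∑ x : Fin M × Fin M,
      {ω | X x.1 ω = X x.2 ω}.indicator (fun _ => (1 : ℝ)) ω ≤ Bd := by
    have hall : ∀ᵐ ω ∂P, ∀ v, ∃ a, 0 < m v a ∧ X v ω = e a :=
      ae_all_iff.2 fun v => ae_mem_atoms (hX v) (h v)
    filter_upwards [hall] with ω hω
    choose F hF using hω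
    refine le_trans (le_of_eq ?_) (hB F fun v => (hF v).1)
    rw [Nat.card_eq_fintype_card, Fintype.card_subtype, card_eq_sum_ones, Nat.cast_sum, sum_filter]
    refine sum_congr rfl fun x _ => ?_
    by_cases hx : F x.1 = F x.2
    · have : ω ∈ {ω | X x.1 ω = X x.2 ω} := by
        show X x.1 ω = X x.2 ω
        rw [(hF x.1).2, (hF x.2).2, hx]
      rw [Set.indicator_of_mem this, if_pos hx, Nat.cast_one]
    · have : ω ∉ {ω | X x.1 ω = X x.2 ω} := by
        intro hc
        have hc' : X x.1 ω = X x.2 ω := hc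
        rw [(hF x.1).2, (hF x.2).2] at hc'
        exact hx (he hc')
      rw [Set.indicator_of_notMem this, if_neg hx]
  have hint : Integrable (fun ω => ∑ x : Fin M × Fin M,
      {ω | X x.1 ω = X x.2 ω}.indicator (fun _ => (1 : ℝ)) ω) P := by
    refine integrable_finsetSum _ fun x _ => ?_
    exact (integrable_const 1).indicator (hmeas x)
  have := integral_mono_ae hint (integrable_const Bd) hae
  refine this.trans (le_of_eq ?_)
  simp

end Pool.Agent.Lib.MP_fe4852_pr
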