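import Mathlib

/-!
# A majorisation bound for sums of squares
-/

namespace Pool.Agent.Lib.MP_fe4852_pr

open Finset Real

/-- Abel summation: `∑ (z k - Y k) Y k ≥ - ε Y 0` if the partial sums of `z - Y` are `≥ -ε` and
`Y` is nonincreasing and nonnegative. -/
lemma abel_bound {Y z : ℕ → ℝ} {ε : ℝ} (hY : Antitone Y) (s : ℕ)
    (h : ∀ m, 1 ≤ m → m ≤ s → -ε ≤ ∑ k ∈ range m, (z k - Y k)) :
    ∀ m, m + 1 ≤ s → (∑ k ∈ range (m + 1), (z k - Y k) + ε) * Y m - ε * Y 0 ≤
      ∑ k ∈ range (m + 1), (z k - Y k) * Y k := by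
  intro m
  induction m with
  | zero =>
    intro _
    simp
    ring_nf
    exact le_refl _
  | succ m ih =>
    intro hm
    have h1 := ih (by omega)
    have h2 := h (m + 1) (by omega) (by omega)
    rw [sum_range_succ (n := m + 1), sum_range_succ (n := m + 1)]
    have h3 : (∑ k ∈ range (m + 1), (z k - Y k) + ε) * Y (m + 1) ≤
        (∑ k ∈ range (m + 1), (z k - Y k) + ε) * Y m :=
      mul_le_mul_of_nonneg_left (hY (Nat.le_succ m)) (by linarith)
    nlinarith

lemma sum_sq_le_aux {Y : ℕ → ℝ} {p ε : ℝ} (hY : Antitone Y) (hY0 : ∀ k, 0 ≤ Y k) (hY1 : Y 0 ≤ 1)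
    (hp0 : 0 < p) (hp1 : p ≤ 1) (hε : 0 ≤ ε) {s : ℕ} (hs : 1 ≤ s)
    (h : ∀ m, 1 ≤ m → m ≤ s → ∑ k ∈ range m, Y k ≤ 1 - (1 - p) ^ m + ε) :
    ∑ k ∈ range s, Y k ^ 2 ≤ p / (2 - p) + 2 * ε := by
  set z : ℕ → ℝ := fun k => p * (1 - p) ^ k with hz
  have hsumz : ∀ m, ∑ k ∈ range m, z k = 1 - (1 - p) ^ m := by
    intro m
    induction m with
    | zero => simp
    | succ m ih => rw [sum_range_succ, ih, hz, pow_succ]; ring
  have hT : ∀ m, 1 ≤ m → m ≤ s → -ε ≤ ∑ k ∈ range m, (z k - Y k) := by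
    intro m h1 h2
    rw [sum_sub_distrib, hsumz]
    linarith [h m h1 h2]
  obtain ⟨t, rfl⟩ : ∃ t, s = t + 1 := ⟨s - 1, by omega⟩
  have hA := abel_bound hY (t + 1) hT t le_rfl
  have hT' := hT (t + 1) (by omega) le_rfl
  have hA2 : -ε ≤ ∑ k ∈ range (t + 1), (z k - Y k) * Y k := by
    have h1 : 0 ≤ (∑ k ∈ range (t + 1), (z k - Y k) + ε) * Y t :=
      mul_nonneg (by linarith) (hY0 t)
    have h2 : ε * Y 0 ≤ ε * 1 := mul_le_mul_of_nonneg_left hY1 hε
    linarith
  have hcs : ∑ k ∈ range (t + 1), (z k - Y k) * Y k ≤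
      (∑ k ∈ range (t + 1), z k ^ 2) / 2 - (∑ k ∈ range (t + 1), Y k ^ 2) / 2 := by
    rw [sum_div, sum_div, ← sum_sub_distrib]
    refine sum_le_sum fun k _ => ?_
    nlinarith [sq_nonneg (z k - Y k)]
  have hz2 : ∑ k ∈ range (t + 1), z k ^ 2 ≤ p / (2 - p) := by
    have h2p : 0 < 2 - p := by linarith
    have e : ∀ m, ∑ k ∈ range m, z k ^ 2 = p / (2 - p) * (1 - ((1 - p) ^ 2) ^ m) := by
      intro m
      induction m with
      | zero => simp
      | succ m ih =>
        rw [sum_range_succ, ih, hz, pow_succ ((1 - p) ^ 2)]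
        simp only
        rw [mul_pow, ← pow_mul (1 - p) m 2, mul_comm m 2, pow_mul (1 - p) 2 m]
        field_simp
        ring
    rw [e]
    have h3 : 0 ≤ ((1 - p) ^ 2) ^ (t + 1) := by positivity
    have h4 : 0 ≤ p / (2 - p) := by positivity
    nlinarith
  linarith

/-- If any `s` of the numbers `y i` sum to at most `1 - (1-p)^k + ε` (`k` the number of distinct
indices), then `∑ y i ^ 2 ≤ p/(2-p) + 2ε + 1/s`. -/
lemma sum_sq_le {n : ℕ} {y : Fin n → ℝ} {p ε : ℝ} (hy0 : ∀ i, 0 ≤ y i) (hy1 : ∑ i, y i ≤ 1)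
    (hp0 : 0 < p) (hp1 : p ≤ 1) (hε : 0 ≤ ε) {s : ℕ} (hs : 1 ≤ s)
    (h : ∀ τ : Fin s → Fin n,
      ∑ i ∈ univ.image τ, y i ≤ 1 - (1 - p) ^ (univ.image τ).card + ε) :
    ∑ i, y i ^ 2 ≤ p / (2 - p) + 2 * ε + 1 / s := by
  set σ : Equiv.Perm (Fin n) := Tuple.sort (fun i => - y i) with hσ
  have hmono : Monotone ((fun i => - y i) ∘ σ) := Tuple.monotone_sort _
  set Y : ℕ → ℝ := fun k => if hk : k < n then y (σ ⟨k, hk⟩) else 0 with hYdef
  have hYval : ∀ k (hk : k < n), Y k = y (σ ⟨k, hk⟩) := fun k hk => by simp [hYdef, hk]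
  have hYout : ∀ k, n ≤ k → Y k = 0 := fun k hk => by
    simp only [hYdef]; rw [dif_neg (by omega)]
  have hY0 : ∀ k, 0 ≤ Y k := by
    intro k
    by_cases hk : k < n
    · rw [hYval k hk]; exact hy0 _
    · rw [hYout k (by omega)]
  have hY : Antitone Y := by
    intro j k hjk
    by_cases hk : k < n
    · rw [hYval k hk, hYval j (by omega)]
      have := hmono (show (⟨j, by omega⟩ : Fin n) ≤ ⟨k, hk⟩ from hjk)
      simp only [Function.comp_apply] at this
      linarith
    · rw [hYout k (by omega)]; exact hY0 j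
  have hsum : ∀ g : ℝ → ℝ, g 0 = 0 → ∑ k ∈ range n, g (Y k) = ∑ i, g (y i) := by
    intro g _
    rw [sum_range, ← Equiv.sum_comp σ (fun i => g (y i))]
    refine sum_congr rfl fun i _ => ?_
    rw [hYval i.1 i.2]
  have hsum1 : ∑ k ∈ range n, Y k = ∑ i, y i := hsum (fun x => x) rfl
  have hsum2 : ∑ k ∈ range n, Y k ^ 2 = ∑ i, y i ^ 2 := hsum (fun x => x ^ 2) (by norm_num)
  -- total mass of any range
  have htot : ∀ m, ∑ k ∈ range m, Y k ≤ 1 := by
    intro m
    rcases le_total m n with hm | hm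
    · refine (sum_le_sum_of_subset_of_nonneg (range_mono hm) (fun k _ _ => hY0 k)).trans ?_
      rw [hsum1]; exact hy1
    · have : ∑ k ∈ range m, Y k = ∑ k ∈ range n, Y k := by
        symm
        refine sum_subset (range_mono hm) fun k _ hk => ?_
        exact hYout k (by simpa using hk)
      rw [this, hsum1]; exact hy1
  have hY1 : Y 0 ≤ 1 := by simpa using htot 1
  -- partial sums
  have hpart : ∀ m, 1 ≤ m → m ≤ s → ∑ k ∈ range m, Y k ≤ 1 - (1 - p) ^ m + ε := by
    intro m hm1 hms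
    have hq0 : 0 ≤ 1 - p := by linarith
    have hq1 : 1 - p ≤ 1 := by linarith
    rcases Nat.eq_zero_or_pos n with hn | hn
    · have : ∑ k ∈ range m, Y k = 0 := sum_eq_zero fun k _ => hYout k (by omega)
      rw [this]
      have := pow_le_one₀ (n := m) hq0 hq1
      linarith
    · -- reduce to `m' = min m n`
      set m' := min m n with hm'
      have hm'1 : 1 ≤ m' := by omega
      have hm'n : m' ≤ n := min_le_right _ _
      have hm's : m' ≤ s := by omega
      have e1 : ∑ k ∈ range m, Y k = ∑ k ∈ range m', Y k := by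
        symm
        refine sum_subset (range_mono (min_le_left _ _)) fun k hk hk' => ?_
        rw [mem_range] at hk
        rw [mem_range, not_lt] at hk'
        exact hYout k (by omega)
      set τ : Fin s → Fin n := fun k => σ ⟨min k.1 (m' - 1), by omega⟩ with hτ
      have himg : univ.image τ =
          (range m').attach.image fun k => σ ⟨k.1, by
            have := mem_range.1 k.2; omega⟩ := by
        ext i
        simp only [mem_image, mem_univ, true_and, mem_attach, Subtype.exists, mem_range, hτ]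
        constructor
        · rintro ⟨k, rfl⟩
          exact ⟨min k.1 (m' - 1), by omega, rfl⟩
        · rintro ⟨k, hk, rfl⟩
          refine ⟨⟨k, by omega⟩, ?_⟩
          congr 2
          simp only
          omega
      have hinj : Function.Injective (fun k : {x // x ∈ range m'} => σ ⟨k.1, by
            have := mem_range.1 k.2; omega⟩) := by
        intro k l hkl
        have := σ.injective hkl
        simp only [Fin.mk.injEq] at this
        exact Subtype.ext this
      have hcard : (univ.image τ).card = m' := by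
        rw [himg, card_image_of_injective _ hinj, card_attach, card_range]
      have hsumτ : ∑ i ∈ univ.image τ, y i = ∑ k ∈ range m', Y k := by
        rw [himg, sum_image (fun k _ l _ hkl => hinj hkl), ← sum_attach (range m')]
        refine sum_congr rfl fun k _ => ?_
        rw [hYval k.1 (by have := mem_range.1 k.2; omega)]
      have := h τ
      rw [hcard, hsumτ] at this
      rw [e1]
      refine this.trans ?_
      have hpow : (1 - p) ^ m ≤ (1 - p) ^ m' :=
        pow_le_pow_of_le_one hq0 hq1 (min_le_left _ _)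
      linarith
  have hmain := sum_sq_le_aux hY hY0 hY1 hp0 hp1 hε hs hpart
  -- the tail
  have hspos : (0 : ℝ) < s := by exact_mod_cast hs
  have hYs : Y s ≤ 1 / s := by
    rw [le_div_iff₀ hspos]
    have h1 : ∑ _k ∈ range s, Y s ≤ ∑ k ∈ range s, Y k :=
      sum_le_sum fun k hk => hY (mem_range.1 hk).le
    rw [sum_const, card_range, nsmul_eq_mul] at h1
    linarith [htot s]
  have htail : ∀ r, ∑ k ∈ range (s + r), Y k ^ 2 ≤ ∑ k ∈ range s, Y k ^ 2 + 1 / s := by
    intro r
    rw [sum_range_add]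
    have h1 : ∑ k ∈ range r, Y (s + k) ^ 2 ≤ Y s * ∑ k ∈ range r, Y (s + k) := by
      rw [mul_sum]
      refine sum_le_sum fun k _ => ?_
      rw [sq]
      exact mul_le_mul_of_nonneg_right (hY (Nat.le_add_right s k)) (hY0 _)
    have h2 : ∑ k ∈ range r, Y (s + k) ≤ 1 := by
      have h3 := htot (s + r)
      rw [sum_range_add] at h3
      have h4 : 0 ≤ ∑ k ∈ range s, Y k := sum_nonneg fun k _ => hY0 k
      linarith
    have h3 : 0 ≤ ∑ k ∈ range r, Y (s + k) := sum_nonneg fun k _ => hY0 _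
    have h4 : Y s * ∑ k ∈ range r, Y (s + k) ≤ 1 / s * 1 :=
      mul_le_mul hYs h2 h3 (by positivity)
    linarith
  have hle : ∑ k ∈ range n, Y k ^ 2 ≤ ∑ k ∈ range (s + n), Y k ^ 2 :=
    sum_le_sum_of_subset_of_nonneg (range_mono (by omega)) (fun k _ _ => sq_nonneg _)
  rw [← hsum2]
  linarith [htail n]

end Pool.Agent.Lib.MP_fe4852_pr
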