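import Pool.Agent.Lib.MP_fe4852_pr.Chernoff

/-!
# Existence of pseudo-random zero-one matrices
-/

namespace Pool.Agent.Lib.MP_fe4852_pr

open Finset Real Filter Topology

/-- Entries below `a`. -/
def lowSet (a b : ℕ) : Finset (Fin b) := univ.filter fun x => x.val < a

/-- Entries at least `a`. -/
def highSet (a b : ℕ) : Finset (Fin b) := univ.filter fun x => ¬ x.val < a

lemma card_lowSet {a b : ℕ} (hab : a ≤ b) : (lowSet a b).card = a := by
  unfold lowSet
  rw [Fin.card_filter_val_lt]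
  simp [hab]

lemma card_highSet {a b : ℕ} (hab : a ≤ b) : ((highSet a b).card : ℝ) = b - a := by
  have h := card_filter_add_card_filter_not (s := (univ : Finset (Fin b)))
    (p := fun x => x.val < a)
  have h1 := card_lowSet hab
  unfold lowSet at h1
  rw [h1, card_univ, Fintype.card_fin] at h
  unfold highSet
  rw [eq_sub_iff_add_eq, add_comm]
  exact_mod_cast h

/-- Chernoff bound for the rows of a matrix. -/
lemma chernoff_rows {M n b : ℕ} (hb : 0 < b) (T : Finset (Fin n)) (C : Finset (Fin b)) {ε : ℝ}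
    (hε : 0 ≤ ε) :
    ((univ.filter fun A : Fin M → Fin n → Fin b =>
      ((univ.filter fun v => ∀ i ∈ T, A v i ∈ C).card : ℝ) ≤
        (((C.card : ℝ) / b) ^ T.card - ε) * M).card : ℝ) ≤
      exp (-(ε ^ 2 / 2) * M) * Fintype.card (Fin M → Fin n → Fin b) := by
  have : Nonempty (Fin b) := ⟨⟨0, hb⟩⟩
  have h := chernoff_count (ι := Fin M) (κ := Fin n → Fin b)
    (univ.filter fun r : Fin n → Fin b => ∀ i ∈ T, r i ∈ C) (((C.card : ℝ) / b) ^ T.card) ε
    (by convert card_cyl hb T C) Fintype.card_pos hε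
  have e : ∀ A : Fin M → Fin n → Fin b, (univ.filter fun v => A v ∈
      (univ.filter fun r : Fin n → Fin b => ∀ i ∈ T, r i ∈ C)) =
      univ.filter fun v => ∀ i ∈ T, A v i ∈ C := by
    intro A; ext v; simp
  simp only [e, Fintype.card_fin] at h
  refine h.trans (le_of_eq ?_)
  congr 1
  simp only [Fintype.card_fun, Fintype.card_fin]
  push_cast
  rfl

/-- Chernoff bound for the columns of a matrix, lower tail. -/
lemma chernoff_cols {M n b : ℕ} (hb : 0 < b) (B : Finset (Fin M → Fin b)) {q ε : ℝ}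
    (hq : (B.card : ℝ) = q * Fintype.card (Fin M → Fin b)) (hε : 0 ≤ ε) :
    ((univ.filter fun A : Fin M → Fin n → Fin b =>
      ((univ.filter fun i => (fun v => A v i) ∈ B).card : ℝ) ≤ (q - ε) * n).card : ℝ) ≤
      exp (-(ε ^ 2 / 2) * n) * Fintype.card (Fin M → Fin n → Fin b) := by
  have : Nonempty (Fin b) := ⟨⟨0, hb⟩⟩
  have h := chernoff_count (ι := Fin n) (κ := Fin M → Fin b) B q ε hq Fintype.card_pos hε
  simp only [Fintype.card_fin] at h
  have e1 : (univ.filter fun A : Fin M → Fin n → Fin b =>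
      ((univ.filter fun i => (fun v => A v i) ∈ B).card : ℝ) ≤ (q - ε) * n).card =
      (univ.filter fun g : Fin n → Fin M → Fin b =>
      ((univ.filter fun i => g i ∈ B).card : ℝ) ≤ (q - ε) * n).card := by
    refine card_bij' (fun A _ => fun i v => A v i) (fun g _ => fun v i => g i v) ?_ ?_ ?_ ?_
    · intro A hA
      simpa using hA
    · intro g hg
      simpa using hg
    · intro A _; rfl
    · intro g _; rfl
  rw [e1]
  refine h.trans (le_of_eq ?_)
  congr 1
  simp only [Fintype.card_fun, Fintype.card_fin]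
  push_cast
  rw [← pow_mul, ← pow_mul, mul_comm]

lemma compl_density {M b : ℕ} (B : Finset (Fin M → Fin b)) {q : ℝ}
    (hq : (B.card : ℝ) = q * Fintype.card (Fin M → Fin b)) :
    ((Bᶜ).card : ℝ) = (1 - q) * Fintype.card (Fin M → Fin b) := by
  have h := card_add_card_compl B
  have h' : (B.card : ℝ) + (Bᶜ.card : ℝ) = Fintype.card (Fin M → Fin b) := by exact_mod_cast h
  linarith

/-- The union bound tends to zero. -/
lemma union_bound_tendsto (s : ℕ) {ε c : ℝ} (hε : 0 < ε) (hc : 0 < c) :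
    Tendsto (fun M : ℕ => ((M : ℝ) ^ 3) ^ s * exp (-(ε ^ 2 / 2) * M) +
      3 * (M : ℝ) ^ 2 * exp (-((c / M) ^ 2 / 2) * ((M : ℝ) ^ 3))) atTop (𝓝 0) := by
  have h1 : Tendsto (fun M : ℕ => (M : ℝ) ^ (3 * s) * exp (-(ε ^ 2 / 2)) ^ M) atTop (𝓝 0) := by
    refine tendsto_pow_const_mul_const_pow_of_abs_lt_one (3 * s) ?_
    rw [abs_of_pos (exp_pos _)]
    exact Real.exp_lt_one_iff.2 (by nlinarith [pow_pos hε 2])
  have h2 : Tendsto (fun M : ℕ => (M : ℝ) ^ 2 * exp (-(c ^ 2 / 2)) ^ M) atTop (𝓝 0) := by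
    refine tendsto_pow_const_mul_const_pow_of_abs_lt_one 2 ?_
    rw [abs_of_pos (exp_pos _)]
    exact Real.exp_lt_one_iff.2 (by nlinarith [pow_pos hc 2])
  have h3 := h1.add (h2.const_mul 3)
  simp only [mul_zero, add_zero] at h3
  refine h3.congr' ?_
  filter_upwards [eventually_ge_atTop 1] with M hM
  have hM' : (M : ℝ) ≠ 0 := by positivity
  rw [← Real.exp_nat_mul, ← Real.exp_nat_mul, pow_mul]
  congr 1
  · congr 2; ring
  · rw [← mul_assoc]
    congr 2
    field_simp

/-- **Existence of a good matrix.** -/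
lemma exists_matrix {a b : ℕ} (hab : a ≤ b) (hb : 0 < b) (s : ℕ) {ε c : ℝ} (hε : 0 < ε)
    (hc : 0 < c) :
    ∀ᶠ M : ℕ in atTop, ∃ (n : ℕ) (_ : 0 < n) (A : Fin M → Fin n → Prop),
      (∀ τ : Fin s → Fin n, ((1 - (a : ℝ) / b) ^ (univ.image τ).card - ε) * M <
        Nat.card {v // ∀ i ∈ univ.image τ, ¬ A v i}) ∧
      (∀ v w, v ≠ w → ((a : ℝ) / b) ^ 2 * n - c / M * n < Nat.card {i // A v i ∧ A w i} ∧
        (Nat.card {i // A v i ∧ A w i} : ℝ) < ((a : ℝ) / b) ^ 2 * n + c / M * n) ∧
      (∀ v, (Nat.card {i // A v i} : ℝ) < (a : ℝ) / b * n + c / M * n) := by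
  classical
  have hlim := union_bound_tendsto s hε hc
  filter_upwards [(tendsto_order.1 hlim).2 1 one_pos, eventually_ge_atTop 1] with M hM1 hM
  have : Nonempty (Fin b) := ⟨⟨0, hb⟩⟩
  set n : ℕ := M ^ 3 with hn
  have hnpos : 0 < n := by positivity
  have hncast : (n : ℝ) = (M : ℝ) ^ 3 := by rw [hn]; push_cast; ring
  set δ : ℝ := c / M with hδ
  have hMpos : (0 : ℝ) < M := by exact_mod_cast hM
  have hδ0 : 0 ≤ δ := by positivity
  set p : ℝ := (a : ℝ) / b with hp
  set TT : ℝ := (Fintype.card (Fin M → Fin n → Fin b) : ℝ) with hTT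
  have hTTpos : 0 < TT := by
    rw [hTT]; exact_mod_cast (Fintype.card_pos (α := Fin M → Fin n → Fin b))
  have hb' : (b : ℝ) ≠ 0 := by positivity
  have hhigh : ((highSet a b).card : ℝ) / b = 1 - p := by
    rw [card_highSet hab, hp]; field_simp
  have hlow : ((lowSet a b).card : ℝ) / b = p := by rw [card_lowSet hab]
  -- bad sets
  set B2 : Fin M → Fin M → Finset (Fin M → Fin b) := fun v w =>
    univ.filter fun r => ∀ u ∈ ({v, w} : Finset (Fin M)), r u ∈ lowSet a b with hB2
  set bad1 : (Fin s → Fin n) → Finset (Fin M → Fin n → Fin b) := fun τ =>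
    univ.filter fun A => ((univ.filter fun v => ∀ i ∈ univ.image τ, A v i ∈ highSet a b).card : ℝ) ≤
      ((((highSet a b).card : ℝ) / b) ^ (univ.image τ).card - ε) * M with hbad1
  set bad2 : Fin M × Fin M → Finset (Fin M → Fin n → Fin b) := fun x =>
    if x.1 = x.2 then ∅ else univ.filter fun A =>
      ((univ.filter fun i => (fun v => A v i) ∈ B2 x.1 x.2).card : ℝ) ≤ (p ^ 2 - δ) * n with hbad2
  set bad3 : Fin M × Fin M → Finset (Fin M → Fin n → Fin b) := fun x =>
    univ.filter fun A =>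
      ((univ.filter fun i => (fun v => A v i) ∈ (B2 x.1 x.2)ᶜ).card : ℝ) ≤
        ((1 - p ^ (({x.1, x.2} : Finset (Fin M)).card)) - δ) * n with hbad3
  have hB2card : ∀ v w, ((B2 v w).card : ℝ) =
      p ^ (({v, w} : Finset (Fin M)).card) * Fintype.card (Fin M → Fin b) := by
    intro v w
    have h := card_cyl hb ({v, w} : Finset (Fin M)) (lowSet a b)
    rw [hlow] at h
    rw [← h]
    simp only [hB2]
    congr!
  have c1 : ∀ τ, ((bad1 τ).card : ℝ) ≤ exp (-(ε ^ 2 / 2) * M) * TT := fun τ =>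
    chernoff_rows hb _ _ hε.le
  have c2 : ∀ x, ((bad2 x).card : ℝ) ≤ exp (-(δ ^ 2 / 2) * n) * TT := by
    intro x
    simp only [hbad2]
    split_ifs with hx
    · rw [card_empty, Nat.cast_zero]; positivity
    · refine chernoff_cols hb _ ?_ hδ0
      rw [hB2card, card_pair hx]
  have c3 : ∀ x, ((bad3 x).card : ℝ) ≤ exp (-(δ ^ 2 / 2) * n) * TT := fun x =>
    chernoff_cols hb _ (compl_density _ (hB2card _ _)) hδ0
  set bad : Finset (Fin M → Fin n → Fin b) :=
    univ.biUnion bad1 ∪ (univ.biUnion bad2 ∪ univ.biUnion bad3) with hbad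
  have hcard : ((bad.card : ℕ) : ℝ) < TT := by
    have t1 : ((univ.biUnion bad1).card : ℝ) ≤ (n : ℝ) ^ s * (exp (-(ε ^ 2 / 2) * M) * TT) := by
      calc ((univ.biUnion bad1).card : ℝ) ≤ ∑ τ, ((bad1 τ).card : ℝ) := by
            exact_mod_cast card_biUnion_le
        _ ≤ ∑ _τ : Fin s → Fin n, exp (-(ε ^ 2 / 2) * M) * TT := sum_le_sum fun τ _ => c1 τ
        _ = _ := by
            rw [sum_const, card_univ, nsmul_eq_mul, Fintype.card_fun, Fintype.card_fin,
              Fintype.card_fin]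
            push_cast
            ring
    have t2 : ((univ.biUnion bad2).card : ℝ) ≤ (M : ℝ) ^ 2 * (exp (-(δ ^ 2 / 2) * n) * TT) := by
      calc ((univ.biUnion bad2).card : ℝ) ≤ ∑ x, ((bad2 x).card : ℝ) := by
            exact_mod_cast card_biUnion_le
        _ ≤ ∑ _x : Fin M × Fin M, exp (-(δ ^ 2 / 2) * n) * TT := sum_le_sum fun x _ => c2 x
        _ = _ := by
            rw [sum_const, card_univ, nsmul_eq_mul, Fintype.card_prod, Fintype.card_fin]
            push_cast
            ring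
    have t3 : ((univ.biUnion bad3).card : ℝ) ≤ (M : ℝ) ^ 2 * (exp (-(δ ^ 2 / 2) * n) * TT) := by
      calc ((univ.biUnion bad3).card : ℝ) ≤ ∑ x, ((bad3 x).card : ℝ) := by
            exact_mod_cast card_biUnion_le
        _ ≤ ∑ _x : Fin M × Fin M, exp (-(δ ^ 2 / 2) * n) * TT := sum_le_sum fun x _ => c3 x
        _ = _ := by
            rw [sum_const, card_univ, nsmul_eq_mul, Fintype.card_prod, Fintype.card_fin]
            push_cast
            ring
    have tt : ((bad.card : ℕ) : ℝ) ≤ ((univ.biUnion bad1).card : ℝ) +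
        (((univ.biUnion bad2).card : ℝ) + ((univ.biUnion bad3).card : ℝ)) := by
      have h1 := card_union_le (univ.biUnion bad1) (univ.biUnion bad2 ∪ univ.biUnion bad3)
      have h2 := card_union_le (univ.biUnion bad2) (univ.biUnion bad3)
      rw [hbad]
      exact_mod_cast h1.trans (by omega)
    have hfin : ((n : ℝ) ^ s * exp (-(ε ^ 2 / 2) * M) + 3 * (M : ℝ) ^ 2 *
        exp (-(δ ^ 2 / 2) * n)) * TT < 1 * TT := by
      refine mul_lt_mul_of_pos_right ?_ hTTpos
      rw [hncast]
      exact hM1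
    have hpos : 0 ≤ (M : ℝ) ^ 2 * (exp (-(δ ^ 2 / 2) * n) * TT) := by positivity
    calc ((bad.card : ℕ) : ℝ) ≤ _ := tt
      _ ≤ (n : ℝ) ^ s * (exp (-(ε ^ 2 / 2) * M) * TT) +
          ((M : ℝ) ^ 2 * (exp (-(δ ^ 2 / 2) * n) * TT) +
            (M : ℝ) ^ 2 * (exp (-(δ ^ 2 / 2) * n) * TT)) := by linarith
      _ ≤ ((n : ℝ) ^ s * exp (-(ε ^ 2 / 2) * M) + 3 * (M : ℝ) ^ 2 *
        exp (-(δ ^ 2 / 2) * n)) * TT := by linarith
      _ < 1 * TT := hfin
      _ = TT := one_mul _
  obtain ⟨A, hA⟩ : ∃ A, A ∉ bad := by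
    by_contra hne
    push Not at hne
    have : bad = univ := eq_univ_of_forall hne
    rw [this, card_univ] at hcard
    exact lt_irrefl _ hcard
  have hA1 : ∀ τ, A ∉ bad1 τ := fun τ h => hA (mem_union_left _ (mem_biUnion.2 ⟨τ, mem_univ _, h⟩))
  have hA2 : ∀ x, A ∉ bad2 x := fun x h =>
    hA (mem_union_right _ (mem_union_left _ (mem_biUnion.2 ⟨x, mem_univ _, h⟩)))
  have hA3 : ∀ x, A ∉ bad3 x := fun x h =>
    hA (mem_union_right _ (mem_union_right _ (mem_biUnion.2 ⟨x, mem_univ _, h⟩)))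
  refine ⟨n, hnpos, fun v i => (A v i).val < a, ?_, ?_, ?_⟩
  · intro τ
    have h := hA1 τ
    simp only [hbad1, mem_filter, mem_univ, true_and, not_le] at h
    rw [hhigh] at h
    refine h.trans_le (le_of_eq ?_)
    rw [Nat.card_eq_fintype_card, Fintype.card_subtype]
    congr 2
    ext v
    simp [highSet]
  · intro v w hvw
    have hset : (univ.filter fun i => (fun u => A u i) ∈ B2 v w) =
        univ.filter fun i => (A v i).val < a ∧ (A w i).val < a := by
      ext i
      simp [hB2, lowSet]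
    have hcount : (Nat.card {i // (A v i).val < a ∧ (A w i).val < a} : ℝ) =
        ((univ.filter fun i => (fun u => A u i) ∈ B2 v w).card : ℝ) := by
      rw [hset, Nat.card_eq_fintype_card, Fintype.card_subtype]
    have h2 := hA2 (v, w)
    simp only [hbad2, if_neg hvw, mem_filter, mem_univ, true_and, not_le] at h2
    have h3 := hA3 (v, w)
    simp only [hbad3, mem_filter, mem_univ, true_and, not_le, card_pair hvw] at h3
    have hsum := card_filter_add_card_filter_not (s := (univ : Finset (Fin n)))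
      (p := fun i => (fun u => A u i) ∈ B2 v w)
    rw [card_univ, Fintype.card_fin] at hsum
    have hc2 : (univ.filter fun i => (fun u => A u i) ∈ (B2 v w)ᶜ) =
        univ.filter fun i => ¬ (fun u => A u i) ∈ B2 v w := by
      ext i; simp
    rw [hc2] at h3
    have hsum' : ((univ.filter fun i => (fun u => A u i) ∈ B2 v w).card : ℝ) +
        ((univ.filter fun i => ¬ (fun u => A u i) ∈ B2 v w).card : ℝ) = n := by
      exact_mod_cast hsum
    rw [hcount]
    constructor
    · linarith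
    · linarith
  · intro v
    have hset : (univ.filter fun i => (fun u => A u i) ∈ B2 v v) =
        univ.filter fun i => (A v i).val < a := by
      ext i
      simp [hB2, lowSet]
    have hcount : (Nat.card {i // (A v i).val < a} : ℝ) =
        ((univ.filter fun i => (fun u => A u i) ∈ B2 v v).card : ℝ) := by
      rw [hset, Nat.card_eq_fintype_card, Fintype.card_subtype]
    have h3 := hA3 (v, v)
    simp only [hbad3, mem_filter, mem_univ, true_and, not_le, pair_eq_singleton, card_singleton,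
      pow_one] at h3
    have hsum := card_filter_add_card_filter_not (s := (univ : Finset (Fin n)))
      (p := fun i => (fun u => A u i) ∈ B2 v v)
    rw [card_univ, Fintype.card_fin] at hsum
    have hc2 : (univ.filter fun i => (fun u => A u i) ∈ (B2 v v)ᶜ) =
        univ.filter fun i => ¬ (fun u => A u i) ∈ B2 v v := by
      ext i; simp
    rw [hc2] at h3
    have hsum' : ((univ.filter fun i => (fun u => A u i) ∈ B2 v v).card : ℝ) +
        ((univ.filter fun i => ¬ (fun u => A u i) ∈ B2 v v).card : ℝ) = n := by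
      exact_mod_cast hsum
    rw [hcount]
    linarith

end Pool.Agent.Lib.MP_fe4852_pr
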