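import Pool.Agent.Lib.MP_fe4852_pr.Laws
import Pool.Agent.Lib.MP_fe4852_pr.Matrix
import Pool.Agent.Lib.MP_fe4852_pr.Major

/-!
# The lower bound for disagreement bounds
-/

open MeasureTheory

namespace Pool.Agent.Lib.MP_fe4852_pr

open Finset Filter Topology

/-- Atoms: one for each column, and one for each ordered pair of rows. -/
abbrev Atom (n M : ℕ) := Fin n ⊕ (Fin M × Fin M)

/-- An injection of the atoms into the real line. -/
noncomputable def emb (n M : ℕ) : Atom n M → ℝ := fun a =>
  (((Fintype.equivFin (Atom n M) a).val : ℕ) : ℝ)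

lemma emb_injective (n M : ℕ) : Function.Injective (emb n M) := by
  intro a b h
  unfold emb at h
  have h2 := Nat.cast_injective h
  exact (Fintype.equivFin (Atom n M)).injective (Fin.ext h2)

/-- The deterministic bound. -/
lemma count_bound {M n s : ℕ} (hM : 0 < M) (hs : 1 ≤ s) {p ε : ℝ} (hp0 : 0 < p) (hp1 : p ≤ 1)
    (hε : 0 ≤ ε) {A : Fin M → Fin n → Prop}
    (hA : ∀ τ : Fin s → Fin n, ((1 - p) ^ (univ.image τ).card - ε) * M <
        Nat.card {v // ∀ i ∈ univ.image τ, ¬ A v i})
    (F : Fin M → Atom n M) (hF1 : ∀ v i, F v = Sum.inl i → A v i)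
    (hF2 : ∀ v a b, F v = Sum.inr (a, b) → v = a ∨ v = b) :
    ((Nat.card {x : Fin M × Fin M // F x.1 = F x.2} : ℕ) : ℝ) ≤
      (p / (2 - p) + 2 * ε + 1 / s) * (M : ℝ) ^ 2 + 2 * M := by
  classical
  set N : Atom n M → ℝ := fun a => ((univ.filter fun v => F v = a).card : ℝ) with hN
  have hN0 : ∀ a, 0 ≤ N a := fun a => Nat.cast_nonneg _
  have hMR : (0 : ℝ) < M := by exact_mod_cast hM
  have hsumN : ∑ a, N a = M := by
    have h := card_eq_sum_card_fiberwise (s := (univ : Finset (Fin M))) (f := F)
      (t := (univ : Finset (Atom n M))) (fun _ _ => mem_coe.2 (mem_univ _))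
    rw [card_univ, Fintype.card_fin] at h
    simp only [hN]
    exact_mod_cast h.symm
  have hcount : ((Nat.card {x : Fin M × Fin M // F x.1 = F x.2} : ℕ) : ℝ) = ∑ a, N a ^ 2 := by
    rw [Nat.card_eq_fintype_card, Fintype.card_subtype, card_eq_sum_ones, Nat.cast_sum, sum_filter,
      Fintype.sum_prod_type]
    have h1 : ∀ v, ∑ w, (if F v = F w then ((1 : ℕ) : ℝ) else 0) = N (F v) := by
      intro v
      rw [← sum_filter, ← Nat.cast_sum, ← card_eq_sum_ones, hN]
      simp only
      congr 2
      ext w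
      simp [eq_comm]
    simp only [h1]
    rw [← sum_fiberwise (s := (univ : Finset (Fin M))) (g := F) (f := fun v => N (F v))]
    refine sum_congr rfl fun a _ => ?_
    have h2 : ∀ v ∈ univ.filter (fun v => F v = a), N (F v) = N a := fun v hv => by
      rw [(mem_filter.1 hv).2]
    rw [sum_congr rfl h2, sum_const, nsmul_eq_mul, sq]
  rw [hcount, Fintype.sum_sum_type]
  have hsplit : ∑ i, N (Sum.inl i) + ∑ x, N (Sum.inr x) = M := by
    rw [← hsumN, Fintype.sum_sum_type]
  have hinr0 : 0 ≤ ∑ x, N (Sum.inr x) := sum_nonneg fun x _ => hN0 _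
  have hinl0 : 0 ≤ ∑ i, N (Sum.inl i) := sum_nonneg fun x _ => hN0 _
  refine add_le_add ?_ ?_
  · have h := sum_sq_le (y := fun i => N (Sum.inl i) / M) (p := p) (ε := ε)
      (fun i => div_nonneg (hN0 _) hMR.le) ?_ hp0 hp1 hε hs ?_
    · have e : ∑ i, (N (Sum.inl i) / M) ^ 2 = (∑ i, N (Sum.inl i) ^ 2) / (M : ℝ) ^ 2 := by
        rw [sum_div]
        exact sum_congr rfl fun i _ => div_pow _ _ _
      rw [e, div_le_iff₀ (by positivity)] at h
      exact h
    · rw [← sum_div, div_le_one hMR]
      linarith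
    · intro τ
      have hτ := hA τ
      have h1 : (∑ i ∈ univ.image τ, N (Sum.inl i)) +
          (Nat.card {v // ∀ i ∈ univ.image τ, ¬ A v i} : ℝ) ≤ M := by
        have e1 : (∑ i ∈ univ.image τ, N (Sum.inl i)) =
            (((univ.image τ).biUnion fun i => univ.filter fun v => F v = Sum.inl i).card : ℝ) := by
          rw [card_biUnion]
          · rw [hN]; push_cast; rfl
          · intro i _ j _ hij
            rw [Function.onFun, disjoint_left]
            intro v hv hv'
            apply hij
            have h3 := (mem_filter.1 hv).2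
            have h4 := (mem_filter.1 hv').2
            rw [h3] at h4
            exact Sum.inl_injective h4
        rw [e1, Nat.card_eq_fintype_card, Fintype.card_subtype, ← Nat.cast_add]
        have hd : Disjoint ((univ.image τ).biUnion fun i => univ.filter fun v => F v = Sum.inl i)
            (univ.filter fun v => ∀ i ∈ univ.image τ, ¬ A v i) := by
          rw [disjoint_left]
          intro v hv hv'
          obtain ⟨i, hi, hvi⟩ := mem_biUnion.1 hv
          exact (mem_filter.1 hv').2 i hi (hF1 v i (mem_filter.1 hvi).2)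
        rw [← card_union_of_disjoint hd]
        have := card_le_univ (((univ.image τ).biUnion fun i => univ.filter fun v =>
          F v = Sum.inl i) ∪ (univ.filter fun v => ∀ i ∈ univ.image τ, ¬ A v i))
        rw [Fintype.card_fin] at this
        exact_mod_cast this
      rw [← sum_div, div_le_iff₀ hMR]
      linarith
  · have h1 : ∀ x : Fin M × Fin M, N (Sum.inr x) ^ 2 ≤ 2 * N (Sum.inr x) := by
      intro x
      have h2 : N (Sum.inr x) ≤ 2 := by
        have h3 : (univ.filter fun v => F v = Sum.inr x) ⊆ {x.1, x.2} := by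
          intro v hv
          have := hF2 v x.1 x.2 (mem_filter.1 hv).2
          simpa using this
        have h4 := (card_le_card h3).trans card_le_two
        simp only [hN]
        exact_mod_cast h4
      rw [sq]
      exact mul_le_mul_of_nonneg_right h2 (hN0 _)
    refine (sum_le_sum fun x _ => h1 x).trans ?_
    rw [← mul_sum]
    linarith

section masses

variable {M n : ℕ} (o K : ℝ) (A : Fin M → Fin n → Prop)

open Classical in
/-- Mass shared by the rows `a` and `b` on top of their common columns. -/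
noncomputable def cw (a b : Fin M) : ℝ := o - (Nat.card {i // A a i ∧ A b i} : ℝ) / K

/-- Mass of the own atom of a row. -/
noncomputable def own (v : Fin M) : ℝ :=
  1 - (Nat.card {i // A v i} : ℝ) / K - ∑ b ∈ univ.erase v, cw o K A v b

open Classical in
/-- The mass functions of the laws. -/
noncomputable def mass (v : Fin M) : Atom n M → ℝ
  | Sum.inl i => if A v i then 1 / K else 0
  | Sum.inr (a, b) =>
      if a = b then (if v = a then own o K A v else 0)
      else if v = a ∨ v = b then cw o K A a b / 2 else 0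

variable {o K A}

lemma cw_comm (a b : Fin M) : cw o K A a b = cw o K A b a := by
  unfold cw
  have : ∀ i, (A a i ∧ A b i) ↔ (A b i ∧ A a i) := fun i => and_comm
  simp only [this]

lemma mass_inr_self (v a : Fin M) :
    mass o K A v (Sum.inr (a, a)) = if v = a then own o K A v else 0 := by
  simp [mass]

lemma mass_inr_ne (v : Fin M) {a b : Fin M} (h : a ≠ b) :
    mass o K A v (Sum.inr (a, b)) = if v = a ∨ v = b then cw o K A a b / 2 else 0 := by
  simp [mass, h]

lemma sum_mass_inl (v : Fin M) :
    ∑ i, mass o K A v (Sum.inl i) = (Nat.card {i // A v i} : ℝ) / K := by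
  classical
  simp only [mass]
  rw [← sum_filter, sum_const, Nat.card_eq_fintype_card, Fintype.card_subtype, nsmul_eq_mul]
  ring_nf

lemma sum_mass (v : Fin M) : ∑ a, mass o K A v a = 1 := by
  classical
  rw [Fintype.sum_sum_type, sum_mass_inl]
  have h : ∀ x : Fin M × Fin M, mass o K A v (Sum.inr x) =
      (if x = (v, v) then own o K A v else 0) +
      ((if x.1 = v then (if x.2 ∈ univ.erase v then cw o K A v x.2 / 2 else 0) else 0) +
       (if x.2 = v then (if x.1 ∈ univ.erase v then cw o K A v x.1 / 2 else 0) else 0)) := by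
    rintro ⟨a, b⟩
    by_cases hab : a = b
    · subst hab
      rw [mass_inr_self]
      by_cases hv : v = a
      · subst hv; simp
      · have hv' : ¬ a = v := fun h => hv h.symm
        simp [hv, hv']
    · rw [mass_inr_ne v hab]
      by_cases hva : v = a
      · subst hva
        have hb : ¬ b = v := fun h => hab h.symm
        simp [hb]
      · have hva' : ¬ a = v := fun h => hva h.symm
        by_cases hvb : v = b
        · subst hvb
          simp [hva', cw_comm a v]
        · have hvb' : ¬ b = v := fun h => hvb h.symm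
          simp [hva, hva', hvb, hvb']
  rw [sum_congr rfl fun x _ => h x, sum_add_distrib, sum_add_distrib]
  have e1 : ∑ x : Fin M × Fin M, (if x = (v, v) then own o K A v else 0) = own o K A v := by
    simp
  have e2 : ∑ x : Fin M × Fin M, (if x.1 = v then
      (if x.2 ∈ univ.erase v then cw o K A v x.2 / 2 else 0) else 0) =
      (∑ b ∈ univ.erase v, cw o K A v b) / 2 := by
    rw [Fintype.sum_prod_type, sum_comm]
    simp only [sum_ite_eq', mem_univ, if_true]
    rw [← sum_filter, sum_div]
    refine sum_congr ?_ fun _ _ => rfl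
    ext x; simp
  have e3 : ∑ x : Fin M × Fin M, (if x.2 = v then
      (if x.1 ∈ univ.erase v then cw o K A v x.1 / 2 else 0) else 0) =
      (∑ b ∈ univ.erase v, cw o K A v b) / 2 := by
    rw [Fintype.sum_prod_type]
    simp only [sum_ite_eq', mem_univ, if_true]
    rw [← sum_filter, sum_div]
    refine sum_congr ?_ fun _ _ => rfl
    ext x; simp
  rw [e1, e2, e3, own]
  ring

lemma mass_nonneg (hK : 0 < K) (hcw : ∀ a b, a ≠ b → 0 ≤ cw o K A a b)
    (hown : ∀ v, 0 ≤ own o K A v) (v : Fin M) (a : Atom n M) : 0 ≤ mass o K A v a := by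
  rcases a with i | ⟨a, b⟩
  · simp only [mass]
    split_ifs
    · positivity
    · exact le_rfl
  · by_cases hab : a = b
    · subst hab
      rw [mass_inr_self]
      split_ifs
      · exact hown v
      · exact le_rfl
    · rw [mass_inr_ne v hab]
      split_ifs
      · have := hcw a b hab; linarith
      · exact le_rfl

lemma sum_min_mass (hK : 0 < K) (hcw : ∀ a b, a ≠ b → 0 ≤ cw o K A a b)
    (hown : ∀ v, 0 ≤ own o K A v) {v w : Fin M} (hvw : v ≠ w) :
    ∑ a, min (mass o K A v a) (mass o K A w a) = o := by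
  classical
  rw [Fintype.sum_sum_type]
  have e1 : ∑ i, min (mass o K A v (Sum.inl i)) (mass o K A w (Sum.inl i)) =
      (Nat.card {i // A v i ∧ A w i} : ℝ) / K := by
    have h : ∀ i, min (mass o K A v (Sum.inl i)) (mass o K A w (Sum.inl i)) =
        if A v i ∧ A w i then 1 / K else 0 := by
      intro i
      simp only [mass]
      have hK' : 0 ≤ 1 / K := by positivity
      by_cases h1 : A v i <;> by_cases h2 : A w i <;> simp [h1, h2, hK.le]
    rw [sum_congr rfl fun i _ => h i, ← sum_filter, sum_const, Nat.card_eq_fintype_card,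
      Fintype.card_subtype, nsmul_eq_mul]
    ring
  have e2 : ∑ x : Fin M × Fin M, min (mass o K A v (Sum.inr x)) (mass o K A w (Sum.inr x)) =
      cw o K A v w := by
    have h : ∀ x : Fin M × Fin M, min (mass o K A v (Sum.inr x)) (mass o K A w (Sum.inr x)) =
        (if x = (v, w) then cw o K A v w / 2 else 0) +
          (if x = (w, v) then cw o K A v w / 2 else 0) := by
      rintro ⟨a, b⟩
      by_cases hab : a = b
      · subst hab
        rw [mass_inr_self, mass_inr_self]
        have h1 : ¬ ((a, a) = (v, w)) := fun h => by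
          rw [Prod.mk.injEq] at h; exact hvw (h.1.symm.trans h.2)
        have h2 : ¬ ((a, a) = (w, v)) := fun h => by
          rw [Prod.mk.injEq] at h; exact hvw (h.2.symm.trans h.1)
        rw [if_neg h1, if_neg h2, add_zero]
        by_cases hva : v = a
        · subst hva
          rw [if_pos rfl, if_neg hvw.symm, min_eq_right (hown v)]
        · rw [if_neg hva]
          split_ifs with hwa
          · exact min_eq_left (hown w)
          · exact min_self 0
      · rw [mass_inr_ne v hab, mass_inr_ne w hab]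
        have hc := hcw a b hab
        have hc2 : 0 ≤ cw o K A a b / 2 := by linarith
        by_cases h1 : (a, b) = (v, w)
        · rw [Prod.mk.injEq] at h1
          obtain ⟨rfl, rfl⟩ := h1
          have h2 : ¬ ((a, b) = (b, a)) := fun h => by
            rw [Prod.mk.injEq] at h; exact hvw h.1
          rw [if_pos (Or.inl rfl), if_pos (Or.inr rfl), if_pos rfl, if_neg h2, min_self, add_zero]
        · by_cases h2 : (a, b) = (w, v)
          · rw [Prod.mk.injEq] at h2
            obtain ⟨rfl, rfl⟩ := h2
            rw [if_pos (Or.inr rfl), if_pos (Or.inl rfl), if_neg h1, if_pos rfl, min_self, zero_add,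
              cw_comm]
          · rw [if_neg h1, if_neg h2, add_zero]
            have h3 : ¬ ((v = a ∨ v = b) ∧ (w = a ∨ w = b)) := by
              rintro ⟨h4 | h4, h5 | h5⟩
              · exact hvw (h4.trans h5.symm)
              · exact h1 (by rw [h4, h5])
              · exact h2 (by rw [h4, h5])
              · exact hvw (h4.trans h5.symm)
            by_cases h4 : v = a ∨ v = b
            · rw [if_pos h4, if_neg (fun h5 => h3 ⟨h4, h5⟩), min_eq_right hc2]
            · rw [if_neg h4]
              split_ifs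
              · exact min_eq_left hc2
              · exact min_self 0
    rw [sum_congr rfl fun x _ => h x, sum_add_distrib]
    simp
  rw [e1, e2, cw]
  ring

lemma mass_pos_inl {v : Fin M} {i : Fin n} (h : 0 < mass o K A v (Sum.inl i)) : A v i := by
  classical
  by_contra hn
  simp [mass, hn] at h

lemma mass_pos_inr {v a b : Fin M} (h : 0 < mass o K A v (Sum.inr (a, b))) : v = a ∨ v = b := by
  by_contra hn
  rw [not_or] at hn
  by_cases hab : a = b
  · subst hab
    rw [mass_inr_self, if_neg hn.1] at h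
    exact lt_irrefl _ h
  · rw [mass_inr_ne v hab, if_neg (not_or.2 hn)] at h
    exact lt_irrefl _ h

end masses

/-- The main estimate for a rational density `p = a / b` above `1 - x`. -/
lemma main_estimate {f : ℝ → ℝ} (hf : IsDisagreementBound f) {x : ℝ} (hx0 : 0 < x) (hx1 : x < 1)
    {a b : ℕ} (hab : a ≤ b) (hb : 0 < b) (hp : 1 - x < (a : ℝ) / b) {s : ℕ} (hs : 1 ≤ s) {ε : ℝ}
    (hε : 0 < ε) :
    1 - f x ≤ ((a : ℝ) / b) / (2 - (a : ℝ) / b) + 2 * ε + 1 / s := by
  set p : ℝ := (a : ℝ) / b with hpdef
  set o : ℝ := 1 - x with ho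
  have ho0 : 0 < o := by rw [ho]; linarith
  have ho1 : o < 1 := by rw [ho]; linarith
  have hp0 : 0 < p := ho0.trans hp
  have hp1 : p ≤ 1 := by
    rw [hpdef, div_le_one (by exact_mod_cast hb)]
    exact_mod_cast hab
  set c₀ : ℝ := p * (p - o) / 2 with hc₀
  have hc₀pos : 0 < c₀ := by
    have : 0 < p - o := by linarith
    positivity
  set Bd : ℝ := p / (2 - p) + 2 * ε + 1 / s with hBd
  have key : ∀ᶠ M : ℕ in atTop, (1 - 1 / (M : ℝ)) * (1 - f x) ≤ Bd + 2 / M := by
    filter_upwards [exists_matrix hab hb s hε hc₀pos, eventually_ge_atTop 1] with M hM hM1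
    obtain ⟨n, hn, A, hA1, hA2, hA3⟩ := hM
    have hMR : (0 : ℝ) < M := by exact_mod_cast hM1
    have hnR : (0 : ℝ) < n := by exact_mod_cast hn
    set δ : ℝ := c₀ / M with hδ
    have hδ0 : 0 < δ := by positivity
    have hMδ : M * δ = c₀ := by rw [hδ]; field_simp
    set K : ℝ := (p ^ 2 + δ) * n / o with hK
    have hKpos : 0 < K := by positivity
    have hKo : K * o = (p ^ 2 + δ) * n := by rw [hK]; field_simp
    have hcw : ∀ v w, v ≠ w → 0 ≤ cw o K A v w ∧ cw o K A v w ≤ 2 * δ * n / K := by
      intro v w hvw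
      obtain ⟨h1, h2⟩ := hA2 v w hvw
      unfold cw
      constructor
      · rw [sub_nonneg, div_le_iff₀ hKpos]
        rw [mul_comm o K, hKo]
        rw [← hpdef] at h2
        linarith
      · rw [sub_le_iff_le_add, ← add_div, le_div_iff₀ hKpos, mul_comm o K, hKo]
        rw [← hpdef] at h1
        linarith
    have hown : ∀ v, 0 ≤ own o K A v := by
      intro v
      unfold own
      have h3 := hA3 v
      have hsum : ∑ w ∈ univ.erase v, cw o K A v w ≤ M * (2 * δ * n / K) := by
        calc ∑ w ∈ univ.erase v, cw o K A v w ≤ ∑ _w ∈ univ.erase v, 2 * δ * n / K :=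
              sum_le_sum fun w hw => (hcw v w (ne_of_mem_erase hw).symm).2
          _ = ((univ.erase v).card : ℝ) * (2 * δ * n / K) := by rw [sum_const, nsmul_eq_mul]
          _ ≤ M * (2 * δ * n / K) := by
              refine mul_le_mul_of_nonneg_right ?_ (by positivity)
              have := card_le_univ (univ.erase v)
              rw [Fintype.card_fin] at this
              exact_mod_cast this
      have h4 : (Nat.card {i // A v i} : ℝ) / K ≤ (p * n + δ * n) / K :=
        div_le_div_of_nonneg_right h3.le hKpos.le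
      have h5 : (p * n + δ * n) / K + M * (2 * δ * n / K) ≤ 1 := by
        have e : (p * n + δ * n) / K + M * (2 * δ * n / K) =
            ((p + δ + 2 * (M * δ)) * n) / K := by field_simp
        rw [e, hMδ, div_le_one hKpos, ← mul_le_mul_iff_of_pos_right ho0, hKo]
        have h6 : (p + δ + 2 * c₀) * o ≤ p ^ 2 + δ := by
          rw [hc₀]
          have h7 : δ * o ≤ δ := mul_le_of_le_one_right hδ0.le ho1.le
          have h8 : p * (p - o) * o ≤ p * (p - o) := by
            refine mul_le_of_le_one_right ?_ ho1.le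
            have : 0 ≤ p - o := by linarith
            positivity
          nlinarith
        calc (p + δ + 2 * c₀) * n * o = ((p + δ + 2 * c₀) * o) * n := by ring
          _ ≤ (p ^ 2 + δ) * n := mul_le_mul_of_nonneg_right h6 hnR.le
      linarith
    have hcw' : ∀ a b, a ≠ b → 0 ≤ cw o K A a b := fun a b h => (hcw a b h).1
    have hm0 : ∀ v a, 0 ≤ mass o K A v a := fun v a => mass_nonneg hKpos hcw' hown v a
    -- the laws
    set μ : Fin M → ProbabilityMeasure ℝ := fun v =>
      ⟨dlaw (emb n M) (mass o K A v), dlaw_prob _ (hm0 v) (sum_mass v)⟩ with hμ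
    have htv : ∀ v w, v ≠ w → tv (μ v) (μ w) = x := by
      intro v w hvw
      rw [tv_dlaw (emb_injective n M) (hm0 v) (hm0 w) (sum_mass v) (sum_mass w) (μ v) (μ w) rfl rfl,
        sum_min_mass hKpos hcw' hown hvw, ho]
      ring
    obtain ⟨Ω, mΩ, P, hP, X, hX, hmap, hdis⟩ := hf.2 M μ
    have hcountle := sum_agree_le (P := P) hX (emb_injective n M) (m := fun v => mass o K A v)
      (fun v => hmap v) (Bd := Bd * (M : ℝ) ^ 2 + 2 * M) (fun F hF =>
        count_bound (by omega) hs hp0 hp1 hε.le hA1 F
          (fun v i h => mass_pos_inl (h ▸ hF v))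
          (fun v a b h => mass_pos_inr (h ▸ hF v)))
    -- lower bound for the agreement sum
    have hagree : ∀ y ∈ (univ : Finset (Fin M)).offDiag,
        1 - f x ≤ P.real {ω | X y.1 ω = X y.2 ω} := by
      intro y hy
      have hne : y.1 ≠ y.2 := (mem_offDiag.1 hy).2.2
      have h1 := hdis y.1 y.2 hne
      rw [htv _ _ hne] at h1
      have hmeas : MeasurableSet {ω | X y.1 ω = X y.2 ω} :=
        measurableSet_eq_fun (hX y.1) (hX y.2)
      have h2 : {ω | X y.1 ω ≠ X y.2 ω} = {ω | X y.1 ω = X y.2 ω}ᶜ := rfl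
      rw [h2, probReal_compl_eq_one_sub hmeas] at h1
      linarith
    have hlow : ((M : ℝ) ^ 2 - M) * (1 - f x) ≤
        ∑ y : Fin M × Fin M, P.real {ω | X y.1 ω = X y.2 ω} := by
      calc ((M : ℝ) ^ 2 - M) * (1 - f x) =
          ∑ _y ∈ (univ : Finset (Fin M)).offDiag, (1 - f x) := by
            rw [sum_const, offDiag_card, card_univ, Fintype.card_fin, nsmul_eq_mul,
              Nat.cast_sub (Nat.le_mul_self M)]
            push_cast
            ring
        _ ≤ ∑ y ∈ (univ : Finset (Fin M)).offDiag, P.real {ω | X y.1 ω = X y.2 ω} :=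
            sum_le_sum hagree
        _ ≤ _ := sum_le_sum_of_subset_of_nonneg (subset_univ _) fun y _ _ => measureReal_nonneg
    have hfinal := hlow.trans hcountle
    have hM2 : (0 : ℝ) < (M : ℝ) ^ 2 := by positivity
    have e1 : (1 - 1 / (M : ℝ)) * (1 - f x) = ((M : ℝ) ^ 2 - M) * (1 - f x) / (M : ℝ) ^ 2 := by
      field_simp
    have e2 : Bd + 2 / M = (Bd * (M : ℝ) ^ 2 + 2 * M) / (M : ℝ) ^ 2 := by
      field_simp
    rw [e1, e2]
    exact div_le_div_of_nonneg_right hfinal hM2.le
  have hinv : Tendsto (fun M : ℕ => 1 / (M : ℝ)) atTop (𝓝 0) := tendsto_one_div_atTop_nhds_zero_nat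
  have hl : Tendsto (fun M : ℕ => (1 - 1 / (M : ℝ)) * (1 - f x)) atTop (𝓝 (1 - f x)) := by
    have := (hinv.const_sub 1).mul_const (1 - f x)
    simpa using this
  have hr : Tendsto (fun M : ℕ => Bd + 2 / (M : ℝ)) atTop (𝓝 Bd) := by
    have := (hinv.const_mul 2).const_add Bd
    simp only [mul_zero, add_zero] at this
    refine this.congr fun M => ?_
    ring
  exact le_of_tendsto_of_tendsto hl hr key

/-- The case `x = 1`. -/
lemma one_le_at_one {f : ℝ → ℝ} (hf : IsDisagreementBound f) : 1 ≤ f 1 := by
  classical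
  set e : Fin 2 → ℝ := fun a => ((a.val : ℕ) : ℝ) with he
  have hinj : Function.Injective e := fun a b h => Fin.ext (Nat.cast_injective h)
  set m : Fin 2 → Fin 2 → ℝ := fun v a => if a = v then 1 else 0 with hm
  have hm0 : ∀ v a, 0 ≤ m v a := by
    intro v a
    simp only [hm]
    split_ifs <;> norm_num
  have hsum : ∀ v, ∑ a, m v a = 1 := by
    intro v
    simp [hm]
  set μ : Fin 2 → ProbabilityMeasure ℝ := fun v => ⟨dlaw e (m v), dlaw_prob _ (hm0 v) (hsum v)⟩
  have htv : tv (μ 0) (μ 1) = 1 := by
    rw [tv_dlaw hinj (hm0 0) (hm0 1) (hsum 0) (hsum 1) (μ 0) (μ 1) rfl rfl]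
    simp [hm]
  obtain ⟨Ω, mΩ, P, hP, X, hX, hmap, hdis⟩ := hf.2 2 μ
  have h1 := hdis 0 1 (by decide)
  rw [htv] at h1
  refine le_trans (le_of_eq ?_) h1
  have h0 : ∀ᵐ ω ∂P, ∃ a, 0 < m 0 a ∧ X 0 ω = e a := ae_mem_atoms (hX 0) (hmap 0)
  have h1' : ∀ᵐ ω ∂P, ∃ a, 0 < m 1 a ∧ X 1 ω = e a := ae_mem_atoms (hX 1) (hmap 1)
  have hae : ∀ᵐ ω ∂P, ω ∈ {ω | X 0 ω ≠ X 1 ω} := by
    filter_upwards [h0, h1'] with ω hω0 hω1
    obtain ⟨a, ha, hae⟩ := hω0
    obtain ⟨b, hb, hbe⟩ := hω1
    have ha0 : a = 0 := by
      by_contra hn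
      simp [hm, hn] at ha
    have hb1 : b = 1 := by
      by_contra hn
      simp [hm, hn] at hb
    show X 0 ω ≠ X 1 ω
    rw [hae, hbe, ha0, hb1]
    intro hc
    exact absurd (hinj hc) (by decide)
  have : P {ω | X 0 ω ≠ X 1 ω} = 1 := by
    rw [← measure_univ (μ := P)]
    exact measure_congr (Filter.eventuallyEq_univ.2 hae)
  rw [measureReal_def, this, ENNReal.toReal_one]

/-- Every disagreement bound is at least `2x/(1+x)`. -/
theorem bound_ge {f : ℝ → ℝ} (hf : IsDisagreementBound f) {x : ℝ} (hx : x ∈ Set.Icc (0 : ℝ) 1) :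
    2 * x / (1 + x) ≤ f x := by
  rcases eq_or_lt_of_le hx.1 with h0 | h0
  · rw [← h0]
    have := (hf.1 0 ⟨le_rfl, zero_le_one⟩).1
    simpa using this
  rcases eq_or_lt_of_le hx.2 with h1 | h1
  · rw [h1]
    have := one_le_at_one hf
    norm_num
    exact this
  by_contra hlt
  rw [not_le] at hlt
  set o : ℝ := 1 - x with ho
  have ho0 : 0 < o := by rw [ho]; linarith
  have ho1 : o < 1 := by rw [ho]; linarith
  set g : ℝ := 1 - f x with hg
  have hgo : o / (2 - o) < g := by
    have h2 : 2 * x / (1 + x) = 1 - o / (2 - o) := by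
      rw [ho]
      have h3 : (1 : ℝ) + x ≠ 0 := by linarith
      have h4 : (2 : ℝ) - (1 - x) ≠ 0 := by linarith
      field_simp
      ring
    rw [hg]
    linarith
  set η : ℝ := (g - o / (2 - o)) / 4 with hη
  have hη0 : 0 < η := by rw [hη]; linarith
  obtain ⟨r, hr1, hr2⟩ := exists_rat_btwn (show o < min 1 (o + η) from lt_min ho1 (by linarith))
  have hr1' : (r : ℝ) < 1 := hr2.trans_le (min_le_left _ _)
  have hr2' : (r : ℝ) < o + η := hr2.trans_le (min_le_right _ _)
  have hr0 : 0 < r := by
    have : (0 : ℝ) < r := ho0.trans hr1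
    exact_mod_cast this
  obtain ⟨s, hs⟩ := exists_nat_gt (2 / η)
  have hs0 : (0 : ℝ) < s := lt_trans (by positivity) hs
  have hs1 : 1 ≤ s := by
    have : (0 : ℝ) < (s : ℝ) := hs0
    have h5 : 0 < s := by exact_mod_cast this
    omega
  have hcast : (r : ℝ) = ((r.num.toNat : ℕ) : ℝ) / (r.den : ℝ) := by
    have hnum : 0 ≤ r.num := (Rat.num_pos.2 hr0).le
    have h5 : ((r.num.toNat : ℕ) : ℤ) = r.num := Int.toNat_of_nonneg hnum
    have h6 : ((r.num.toNat : ℕ) : ℝ) = (r.num : ℝ) := by exact_mod_cast h5
    rw [h6]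
    exact_mod_cast (Rat.num_div_den r).symm
  have hden : 0 < r.den := r.den_pos
  have hab : r.num.toNat ≤ r.den := by
    have h5 : ((r.num.toNat : ℕ) : ℝ) / (r.den : ℝ) ≤ 1 := by rw [← hcast]; exact hr1'.le
    rw [div_le_one (by exact_mod_cast hden)] at h5
    exact_mod_cast h5
  have hmain := main_estimate hf h0 h1 hab hden (by rw [← hcast]; exact hr1) hs1
    (ε := η / 4) (by positivity)
  rw [← hcast] at hmain
  have h5 : (r : ℝ) / (2 - r) ≤ o / (2 - o) + 2 * η := by
    have h6 : 0 < 2 - (r : ℝ) := by linarith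
    have h7 : 0 < 2 - o := by linarith
    have h8 : (r : ℝ) / (2 - r) - o / (2 - o) = 2 * (r - o) / ((2 - r) * (2 - o)) := by
      field_simp
      ring
    have h9 : 2 * ((r : ℝ) - o) / ((2 - r) * (2 - o)) ≤ 2 * (r - o) := by
      refine div_le_self (by linarith) ?_
      nlinarith
    linarith
  have h6 : 1 / (s : ℝ) < η / 2 := by
    rw [div_lt_iff₀ hη0] at hs
    rw [div_lt_iff₀ hs0]
    linarith
  have h7 : g = o / (2 - o) + 4 * η := by rw [hη]; ring
  linarith

end Pool.Agent.Lib.MP_fe4852_pr
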